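import Pool.Agent.Helper15.UL.GoalsE

/-! # Packet ORD: the well-ordered set of coordinates -/

noncomputable section

namespace UL.PkORD

open Cardinal Set

/-- Small families in `κ.ord.ToType` are strictly bounded, `κ` regular. -/
theorem bdd_of_regular {κ : Cardinal.{0}} (hκ : κ.IsRegular) (K : Type) (f : K → κ.ord.ToType)
    (hK : Cardinal.mk K < κ) : ∃ β, ∀ k, f k < β := by
  by_contra hc
  push Not at hc
  have h1 : IsCofinal (Set.range f) := by
    intro β
    obtain ⟨k, hk⟩ := hc β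
    exact ⟨f k, ⟨k, rfl⟩, hk⟩
  have h2 := Order.cof_le h1
  rw [Ordinal.cof_toType, hκ.cof_ord] at h2
  exact absurd (h2.trans mk_range_le) (not_le.2 hK)

theorem thm : UL.G_ORD := by
  have hreg : (Order.succ Cardinal.continuum.{0}).IsRegular := isRegular_succ aleph0_le_continuum
  have hreg1 : (Order.succ Cardinal.aleph0.{0}).IsRegular := isRegular_succ le_rfl
  have hcW : Order.succ Cardinal.aleph0.{0} ≤ Cardinal.continuum.{0} := by
    rw [succ_aleph0]; exact aleph_one_le_continuum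
  have h1c : (1 : Cardinal.{0}) ≤ Cardinal.continuum := one_le_aleph0.trans aleph0_le_continuum
  let I : Type := (Order.succ Cardinal.continuum.{0}).ord.ToType
  let W : Type := (Order.succ Cardinal.aleph0.{0}).ord.ToType
  have card : ∀ ξ : I, Cardinal.mk (Set.Iio ξ) ≤ Cardinal.continuum := fun ξ =>
    Order.lt_succ_iff.1 (mk_Iio_toType_ord_lt ξ)
  have bdd : ∀ (K : Type) (f : K → I), Cardinal.mk K ≤ Cardinal.continuum → ∃ β, ∀ k, f k < β :=
    fun K f hK => bdd_of_regular hreg K f (Order.lt_succ_iff.2 hK)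
  have hW : Cardinal.mk W ≤ Cardinal.continuum := by
    have : Cardinal.mk W = Order.succ Cardinal.aleph0.{0} := mk_ord_toType _
    rw [this]; exact hcW
  have bddW : ∀ (K : Type) (f : K → W), Cardinal.mk K ≤ Cardinal.aleph0 → ∃ β, ∀ k, f k < β :=
    fun K f hK => bdd_of_regular hreg1 K f (Order.lt_succ_iff.2 hK)
  have cardIic : ∀ ξ : I, Cardinal.mk (Set.Iic ξ) ≤ Cardinal.continuum := by
    intro ξ
    obtain ⟨β, hβ⟩ := bdd Unit (fun _ => ξ) (by rw [mk_unit]; exact h1c)
    have h1 : Set.Iic ξ ⊆ Set.Iio β := fun x hx => lt_of_le_of_lt hx (hβ ())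
    exact (mk_le_mk_of_subset h1).trans (card β)
  refine ⟨I, inferInstance, inferInstance, ?_⟩
  refine ⟨card, bdd, ?_⟩
  intro β₀ nx
  -- one step of the recursion
  have step : ∀ (ν : W) (p : (ν' : W) → ν' < ν → I), ∃ β : I, β₀ < β ∧
      ∀ (ν' : W) (h : ν' < ν), p ν' h < β ∧ ∀ ξ, ξ ≤ p ν' h → nx ξ < β := by
    intro ν p
    let K : Type := Option (Σ ν' : Set.Iio ν, Option (Set.Iic (p ν'.1 ν'.2)))
    let f : K → I := fun k => match k with
      | none => β₀
      | some ⟨ν', none⟩ => p ν'.1 ν'.2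
      | some ⟨_, some ξ⟩ => nx ξ.1
    have hK : Cardinal.mk K ≤ Cardinal.continuum := by
      have h1 : Cardinal.mk (Σ ν' : Set.Iio ν, Option (Set.Iic (p ν'.1 ν'.2))) ≤
          Cardinal.continuum := by
        rw [mk_sigma]
        have h2 : (Cardinal.sum fun ν' : Set.Iio ν => Cardinal.mk (Option (Set.Iic (p ν'.1 ν'.2)))) ≤
            Cardinal.sum fun _ : Set.Iio ν => Cardinal.continuum := by
          refine Cardinal.sum_le_sum _ _ fun ν' => ?_
          rw [mk_option]
          calc Cardinal.mk (Set.Iic (p ν'.1 ν'.2)) + 1 ≤ Cardinal.continuum + Cardinal.continuum :=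
                add_le_add (cardIic _) h1c
            _ = Cardinal.continuum := continuum_add_self
        refine h2.trans ?_
        rw [sum_const', ]
        calc Cardinal.mk (Set.Iio ν) * Cardinal.continuum ≤
              Cardinal.continuum * Cardinal.continuum :=
              mul_le_mul_left ((mk_set_le _).trans hW) _
          _ = Cardinal.continuum := continuum_mul_self
      change Cardinal.mk (Option _) ≤ _
      rw [mk_option]
      calc _ ≤ Cardinal.continuum + Cardinal.continuum := add_le_add h1 h1c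
        _ = Cardinal.continuum := continuum_add_self
    obtain ⟨β, hβ⟩ := bdd K f hK
    refine ⟨β, hβ none, fun ν' h => ⟨hβ (some ⟨⟨ν', h⟩, none⟩), fun ξ hξ => ?_⟩⟩
    exact hβ (some ⟨⟨ν', h⟩, some ⟨ξ, hξ⟩⟩)
  choose g hg1 hg2 using step
  have wf : WellFounded (fun a b : W => a < b) := wellFounded_lt
  let a : W → I := wf.fix (C := fun _ => I) fun ν p => g ν p
  have ha : ∀ ν, a ν = g ν (fun ν' _ => a ν') := fun ν => wf.fix_eq _ ν
  have ha1 : ∀ ν, β₀ < a ν := fun ν => by rw [ha]; exact hg1 _ _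
  have ha2 : ∀ ν ν', ν' < ν → a ν' < a ν := fun ν ν' h => by
    rw [ha ν]; exact (hg2 ν (fun ν' _ => a ν') ν' h).1
  have ha3 : ∀ ν ν', ν' < ν → ∀ ξ, ξ ≤ a ν' → nx ξ < a ν := fun ν ν' h ξ hξ => by
    rw [ha ν]; exact (hg2 ν (fun ν' _ => a ν') ν' h).2 ξ hξ
  -- the supremum
  have hne : {β : I | ∀ ν, a ν < β}.Nonempty := bdd W a hW
  have wfI : WellFounded (fun a b : I => a < b) := wellFounded_lt
  let α := wfI.min _ hne
  have hα : ∀ ν, a ν < α := wfI.min_mem _ hne
  have hα' : ∀ ξ, ξ < α → ∃ ν, ξ ≤ a ν := by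
    intro ξ hξ
    by_contra hc
    push Not at hc
    exact wfI.not_lt_min {β : I | ∀ ν, a ν < β} (x := ξ) hc hξ
  obtain ⟨ν₀, -⟩ := bddW Empty (fun e => e.elim) (by simp)
  refine ⟨α, (ha1 ν₀).trans (hα ν₀), ?_, ?_⟩
  · intro ξ hξ
    obtain ⟨ν, hν⟩ := hα' ξ hξ
    obtain ⟨ν', hν'⟩ := bddW Unit (fun _ => ν) (by simp)
    exact (ha3 ν' ν (hν' ()) ξ hν).trans (hα ν')
  · intro A hA hAα
    have : ∀ x : A, ∃ ν, x.1 ≤ a ν := fun x => hα' x.1 (hAα x.1 x.2)
    choose n hn using this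
    obtain ⟨ν, hν⟩ := bddW A n hA.le_aleph0
    exact ⟨a ν, hα ν, fun x hx => (hn ⟨x, hx⟩).trans_lt (ha2 _ _ (hν ⟨x, hx⟩))⟩

end UL.PkORD
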